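import Mathlib

set_option autoImplicit false
open CategoryTheory

namespace Pool.Agent.AddLim

/-- The operator symbols. -/
inductive Op
  | E (i : ℕ)
  | W (i : ℕ)
  | P (j : ℕ → ℕ)

/-- The ring: the free associative ring on the operator symbols. -/
abbrev RR : Type := FreeAlgebra ℤ Op

/-- The generator of the ring attached to an operator symbol. -/
noncomputable abbrev gen (o : Op) : RR := FreeAlgebra.ι ℤ o

/-- The labels of the basis of the module `MM`. -/
inductive B
  | z
  | ez (i : ℕ)
  | o (j : ℕ → ℕ)
  | e (j : ℕ → ℕ) (i : ℕ)
  | w (j : ℕ → ℕ) (i : ℕ)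

open Classical in
/-- The action of the operator symbols on the basis, `none` stands for zero. -/
noncomputable def act : Op → B → Option B
  | .E i, .z => some (.ez i)
  | .E i, .ez i' => if i' = i then some (.ez i) else none
  | .E i, .o j => some (.e j i)
  | .E i, .e j i' => if i' = i then some (.e j i) else none
  | .E i, .w j i' => if i' = i then some (.w j i) else none
  | .W i, .o j => some (.w j i)
  | .W _, _ => none
  | .P j, .o j' => if j' = j then some .z else none
  | .P j, .e j' i => if j' = j then some (.ez i) else none
  | .P _, _ => none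

/-- The module `MM` as an abelian group: free abelian on `B`. -/
def MM : Type := B →₀ ℤ

noncomputable instance : AddCommGroup MM := inferInstanceAs (AddCommGroup (B →₀ ℤ))

/-- the basis vectors of `MM` -/
noncomputable def bas (b : B) : MM := (Finsupp.single b 1 : B →₀ ℤ)

/-- the additive extension of a function on the basis -/
noncomputable def ext {V : Type} [AddCommGroup V] (φ : B → V) : MM →+ V :=
  (Finsupp.linearCombination ℤ φ : (B →₀ ℤ) →ₗ[ℤ] V).toAddMonoidHom

@[simp] lemma ext_bas {V : Type} [AddCommGroup V] (φ : B → V) (b : B) : ext φ (bas b) = φ b := by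
  change (Finsupp.linearCombination ℤ φ) (Finsupp.single b 1) = φ b
  simp

lemma hom_ext {V : Type} [AddCommGroup V] {f g : MM →+ V} (h : ∀ b, f (bas b) = g (bas b)) :
    f = g := by
  have : (f.toIntLinearMap : (B →₀ ℤ) →ₗ[ℤ] V) = g.toIntLinearMap := by
    apply Finsupp.lhom_ext'
    intro b
    apply LinearMap.ext_ring
    exact h b
  ext m
  exact congrArg (fun F : (B →₀ ℤ) →ₗ[ℤ] V => F m) this

/-- a value in a group attached to an optional basis label -/
noncomputable def optv {V : Type} [AddCommGroup V] (φ : B → V) : Option B → V
  | none => 0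
  | some b => φ b

@[simp] lemma optv_none {V : Type} [AddCommGroup V] (φ : B → V) : optv φ none = 0 := rfl
@[simp] lemma optv_some {V : Type} [AddCommGroup V] (φ : B → V) (b : B) : optv φ (some b) = φ b := rfl

lemma map_optv {V V' : Type} [AddCommGroup V] [AddCommGroup V'] (f : V →+ V') (φ : B → V)
    (b : Option B) : f (optv φ b) = optv (fun b => f (φ b)) b := by
  cases b <;> simp

/-- A group with a family of endomorphisms indexed by the operator symbols is an `RR`-module. -/
noncomputable abbrev opModule (V : Type) [AddCommGroup V] (ρ : Op → (V →+ V)) : Module RR V :=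
  Module.compHom V (FreeAlgebra.lift ℤ (fun o => (ρ o).toIntLinearMap) :
    FreeAlgebra ℤ Op →ₐ[ℤ] Module.End ℤ V).toRingHom

noncomputable instance instModMM : Module RR MM :=
  opModule MM (fun o => ext (fun b => optv bas (act o b)))

lemma gen_smul_MM (o : Op) (m : MM) :
    gen o • m = ext (fun b => optv bas (act o b)) m := by
  change ((FreeAlgebra.lift ℤ (fun o => (ext (fun b => optv bas (act o b))).toIntLinearMap) :
    FreeAlgebra ℤ Op →ₐ[ℤ] Module.End ℤ MM) (FreeAlgebra.ι ℤ o)) m = _
  rw [FreeAlgebra.lift_ι_apply]
  rfl

@[simp] lemma gen_smul_bas (o : Op) (b : B) : gen o • bas b = optv bas (act o b) := by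
  rw [gen_smul_MM, ext_bas]

/-- additive maps commuting with the operators are linear -/
noncomputable def mkLin {V V' : Type} [AddCommGroup V] [Module RR V] [AddCommGroup V'] [Module RR V']
    (f : V →+ V') (h : ∀ (o : Op) (v : V), f (gen o • v) = gen o • f v) : V →ₗ[RR] V' where
  toFun := f
  map_add' := f.map_add
  map_smul' := by
    intro r
    induction r using FreeAlgebra.induction with
    | grade0 r =>
      intro v
      have h1 : (algebraMap ℤ (FreeAlgebra ℤ Op)) r = ((r : ℤ) : RR) := by simp
      rw [h1]
      simp only [RingHom.id_apply]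
      rw [Int.cast_smul_eq_zsmul, Int.cast_smul_eq_zsmul, map_zsmul]
    | grade1 o => intro v; exact h o v
    | mul a b ha hb =>
      intro v
      rw [mul_smul, ha, hb]
      simp only [RingHom.id_apply]
      rw [mul_smul]
    | add a b ha hb =>
      intro v
      rw [add_smul, map_add, ha, hb]
      simp only [RingHom.id_apply]
      rw [add_smul]

@[simp] lemma mkLin_apply {V V' : Type} [AddCommGroup V] [Module RR V] [AddCommGroup V'] [Module RR V']
    (f : V →+ V') (h : ∀ (o : Op) (v : V), f (gen o • v) = gen o • f v) (v : V) :
    mkLin f h v = f v := rfl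

/-- linear maps out of `MM` from values on the basis -/
noncomputable def homMM {V : Type} [AddCommGroup V] [Module RR V] (φ : B → V)
    (h : ∀ (o : Op) (b : B), optv φ (act o b) = gen o • φ b) : MM →ₗ[RR] V :=
  mkLin (ext φ) (by
    intro o
    have key : (ext φ).comp (DistribSMul.toAddMonoidHom MM (gen o)) =
        (DistribSMul.toAddMonoidHom V (gen o)).comp (ext φ) := by
      apply hom_ext
      intro b
      simp only [AddMonoidHom.comp_apply, DistribSMul.toAddMonoidHom_apply, gen_smul_bas, ext_bas]
      rw [map_optv, ← h o b]
      congr 1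
      funext b
      exact ext_bas φ b
    intro v
    exact DFunLike.congr_fun key v)

@[simp] lemma homMM_bas {V : Type} [AddCommGroup V] [Module RR V] (φ : B → V)
    (h : ∀ (o : Op) (b : B), optv φ (act o b) = gen o • φ b) (b : B) :
    homMM φ h (bas b) = φ b := ext_bas φ b

end Pool.Agent.AddLim
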