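import Mathlib
import Pool.Agent.AddLim.Basic

set_option autoImplicit false
open CategoryTheory

namespace Pool.Agent.AddLim

/-- the coefficient group -/
abbrev U : Type := ℕ →₀ ℤ

/-- The detecting module as a group. -/
def NN : Type := U × ((ℕ → ℕ) → U) × ((ℕ → ℕ) → ℕ → U)

noncomputable instance : AddCommGroup NN :=
  inferInstanceAs (AddCommGroup (U × ((ℕ → ℕ) → U) × ((ℕ → ℕ) → ℕ → U)))

/-- constructor -/
def mkN (u : U) (s : (ℕ → ℕ) → U) (v : (ℕ → ℕ) → ℕ → U) : NN := (u, s, v)

/-- first coordinate -/
noncomputable def cU : NN →+ U where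
  toFun x := x.1
  map_zero' := rfl
  map_add' _ _ := rfl

/-- second coordinate -/
noncomputable def cS (j : ℕ → ℕ) : NN →+ U where
  toFun x := x.2.1 j
  map_zero' := rfl
  map_add' _ _ := rfl

/-- third coordinate -/
noncomputable def cV (j : ℕ → ℕ) (i : ℕ) : NN →+ U where
  toFun x := x.2.2 j i
  map_zero' := rfl
  map_add' _ _ := rfl

@[simp] lemma cU_mkN (u : U) (s : (ℕ → ℕ) → U) (v : (ℕ → ℕ) → ℕ → U) : cU (mkN u s v) = u := rfl
@[simp] lemma cS_mkN (u : U) (s : (ℕ → ℕ) → U) (v : (ℕ → ℕ) → ℕ → U) (j : ℕ → ℕ) :
    cS j (mkN u s v) = s j := rfl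
@[simp] lemma cV_mkN (u : U) (s : (ℕ → ℕ) → U) (v : (ℕ → ℕ) → ℕ → U) (j : ℕ → ℕ) (i : ℕ) :
    cV j i (mkN u s v) = v j i := rfl

lemma NN_ext {x y : NN} (h1 : cU x = cU y) (h2 : ∀ j, cS j x = cS j y)
    (h3 : ∀ j i, cV j i x = cV j i y) : x = y := by
  rcases x with ⟨a, b, c⟩
  rcases y with ⟨a', b', c'⟩
  have e1 : a = a' := h1
  have e2 : b = b' := funext h2
  have e3 : c = c' := funext fun j => funext fun i => h3 j i
  rw [e1, e2, e3]

/-- operators on the detecting module -/
noncomputable def opN : Op → (NN →+ NN)
  | .E i =>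
    { toFun := fun x => mkN 0 0 (fun j i' => if i' = i then cV j i x else 0)
      map_zero' := by apply NN_ext <;> intros <;> simp
      map_add' := by
        intro x y
        apply NN_ext
        · simp
        · intro j; simp
        · intro j i'; simp only [cV_mkN, map_add]; split_ifs <;> simp }
  | .W i =>
    { toFun := fun x => mkN 0 0 (fun j i' => if i' = i then cS j x else 0)
      map_zero' := by apply NN_ext <;> intros <;> simp
      map_add' := by
        intro x y
        apply NN_ext
        · simp
        · intro j; simp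
        · intro j i'; simp only [cV_mkN, map_add]; split_ifs <;> simp }
  | .P j =>
    { toFun := fun x => mkN (cS j x) 0 0
      map_zero' := by apply NN_ext <;> intros <;> simp
      map_add' := by
        intro x y
        apply NN_ext <;> intros <;> simp }

noncomputable instance instModNN : Module RR NN := opModule NN opN

lemma gen_smul_NN (o : Op) (x : NN) : gen o • x = opN o x := by
  change ((FreeAlgebra.lift ℤ (fun o => (opN o).toIntLinearMap) :
    FreeAlgebra ℤ Op →ₐ[ℤ] Module.End ℤ NN) (FreeAlgebra.ι ℤ o)) x = _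
  rw [FreeAlgebra.lift_ι_apply]
  rfl

lemma E_smul_NN (i : ℕ) (x : NN) :
    gen (.E i) • x = mkN 0 0 (fun j i' => if i' = i then cV j i x else 0) := gen_smul_NN _ _
lemma W_smul_NN (i : ℕ) (x : NN) :
    gen (.W i) • x = mkN 0 0 (fun j i' => if i' = i then cS j x else 0) := gen_smul_NN _ _
lemma P_smul_NN (j : ℕ → ℕ) (x : NN) :
    gen (.P j) • x = mkN (cS j x) 0 0 := gen_smul_NN _ _

/-- Left multiplication by the idempotent number `n`. -/
noncomputable def eb (n : ℕ) : B → MM
  | .z => bas (.ez n)
  | .ez i => if i = n then bas (.ez n) else 0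
  | .o j => bas (.e j n)
  | .e j i => if i = n then bas (.e j n) else 0
  | .w _ _ => 0

noncomputable def eL (n : ℕ) : MM →ₗ[RR] MM := homMM (eb n) (by
  intro o b
  rcases o with i | i | j <;> rcases b with _ | i' | j' | ⟨j', i'⟩ | ⟨j', i'⟩ <;>
    simp [act, eb] <;> split_ifs <;> simp_all [act, eb])

/-- The sum of one copy of `MM` for the generator `x` (index `none`) and one for each `f_m`. -/
abbrev PP : Type := DirectSum (Option ℕ) (fun _ => MM)

/-- the inclusion of the summand -/
noncomputable abbrev inc (m : Option ℕ) : MM →ₗ[RR] PP :=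
  DirectSum.lof RR (Option ℕ) (fun _ => MM) m

/-- values of the infinite convergent column number `n` -/
noncomputable def omB (n : ℕ) : B → PP
  | .z => 0
  | .ez _ => 0
  | .o j => inc (some (j n)) (bas (.w j n))
  | .e j i => if i = n then inc (some (j n)) (bas (.w j n)) else 0
  | .w _ _ => 0

noncomputable def omL (n : ℕ) : MM →ₗ[RR] PP := homMM (omB n) (by
  intro o b
  rcases o with i | i | j <;> rcases b with _ | i' | j' | ⟨j', i'⟩ | ⟨j', i'⟩
  · simp [act, omB]
  · simp only [act, omB, smul_zero]; split_ifs <;> simp [omB]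
  · simp only [act, omB, optv_some]
    rw [← map_smul, gen_smul_bas]
    simp only [act]
    by_cases h : i = n
    · simp [h]
    · simp [h, Ne.symm h]
  · simp only [act, omB]
    by_cases h : i' = n
    · subst h
      simp only [if_true]
      rw [← map_smul, gen_smul_bas]
      simp only [act]
      by_cases h : i' = i
      · simp [h, omB]
      · simp [h]
    · simp only [h, if_false, smul_zero]
      split_ifs with h2
      · subst h2; simp [omB, h]
      · simp
  · simp only [act, omB, smul_zero]; split_ifs <;> simp [omB]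
  · simp [act, omB]
  · simp [act, omB]
  · simp only [act, omB, optv_some]
    rw [← map_smul, gen_smul_bas]
    simp [act]
  · simp only [act, omB, optv_none]
    split_ifs
    · rw [← map_smul, gen_smul_bas]
      simp [act]
    · simp
  · simp [act, omB]
  · simp [act, omB]
  · simp [act, omB]
  · simp only [act, omB]
    rw [← map_smul, gen_smul_bas]
    split_ifs <;> simp [act, omB]
  · simp only [act, omB]
    split_ifs <;> first | rw [← map_smul, gen_smul_bas] | skip
    all_goals simp [act, omB]
  · simp [act, omB])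

/-- The transition map number `n` of the telescope. -/
noncomputable def TT (n : ℕ) : PP →ₗ[RR] PP :=
  DirectSum.toModule RR (Option ℕ) PP (fun m => match m with
    | none => (inc none) ∘ₗ (LinearMap.id - eL n) + omL n
    | some m => inc (some m))

open Classical in
/-- values of the detecting map on a copy `f_m` -/
noncomputable def phfB (m : ℕ) : B → NN
  | .z => mkN (Finsupp.single m 1) 0 0
  | .ez _ => 0
  | .o j => mkN 0 (fun j' => if j' = j then Finsupp.single m 1 else 0) 0
  | .e _ _ => 0
  | .w j i => mkN 0 0 (fun j' i' => if j' = j ∧ i' = i then Finsupp.single m 1 else 0)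

open Classical in
/-- values of the detecting map on the copy `x` -/
noncomputable def phxB : B → NN
  | .z => 0
  | .ez _ => 0
  | .o j => mkN 0 0 (fun j' i' => if j' = j then Finsupp.single (j i') 1 else 0)
  | .e j i => mkN 0 0 (fun j' i' => if j' = j ∧ i' = i then Finsupp.single (j i) 1 else 0)
  | .w _ _ => 0

lemma NN_zero_mkN : (0 : NN) = mkN 0 0 0 := rfl

@[simp] lemma cU_zero : cU (0 : NN) = 0 := rfl

noncomputable def phf (m : ℕ) : MM →ₗ[RR] NN := homMM (phfB m) (by
  intro o b
  rcases o with i | i | j <;> rcases b with _ | i' | j' | ⟨j', i'⟩ | ⟨j', i'⟩ <;>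
    simp only [act, phfB, E_smul_NN, W_smul_NN, P_smul_NN, optv_none, optv_some, smul_zero]
  all_goals
    apply NN_ext
  all_goals
    intros
    simp only [apply_ite, optv_none, optv_some, phfB, cU_mkN, cS_mkN, cV_mkN, map_zero,
      Pi.zero_apply, ite_self]
    try (split_ifs <;> first | rfl | (exfalso; tauto) | (subst_vars; simp)))

noncomputable def phx : MM →ₗ[RR] NN := homMM phxB (by
  intro o b
  rcases o with i | i | j <;> rcases b with _ | i' | j' | ⟨j', i'⟩ | ⟨j', i'⟩ <;>
    simp only [act, phxB, E_smul_NN, W_smul_NN, P_smul_NN, optv_none, optv_some, smul_zero]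
  all_goals
    apply NN_ext
  all_goals
    intros
    simp only [apply_ite, optv_none, optv_some, phxB, cU_mkN, cS_mkN, cV_mkN, map_zero,
      Pi.zero_apply, ite_self]
    try (split_ifs <;> first | rfl | (exfalso; tauto) | (subst_vars; simp)))

end Pool.Agent.AddLim
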