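import Mathlib
import Pool.Agent.AddLim.Maps

set_option autoImplicit false
open CategoryTheory

namespace Pool.Agent.AddLim

lemma lin_ext {V : Type} [AddCommGroup V] [Module RR V] {f g : MM →ₗ[RR] V}
    (h : ∀ b, f (bas b) = g (bas b)) : f = g := by
  have : f.toAddMonoidHom = g.toAddMonoidHom := hom_ext h
  ext m
  exact DFunLike.congr_fun this m

/-- The detecting map on the stage modules. -/
noncomputable def Phi : PP →ₗ[RR] NN :=
  DirectSum.toModule RR (Option ℕ) NN (fun m => match m with
    | none => phx
    | some m => phf m)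

@[simp] lemma Phi_none (v : MM) : Phi (inc none v) = phx v := by
  simp [Phi, inc, DirectSum.toModule_lof]

@[simp] lemma Phi_some (m : ℕ) (v : MM) : Phi (inc (some m) v) = phf m v := by
  simp [Phi, inc, DirectSum.toModule_lof]

@[simp] lemma TT_none (n : ℕ) (v : MM) :
    TT n (inc none v) = inc none (v - eL n v) + omL n v := by
  simp [TT, inc, DirectSum.toModule_lof]

@[simp] lemma TT_some (n m : ℕ) (v : MM) : TT n (inc (some m) v) = inc (some m) v := by
  simp [TT, inc, DirectSum.toModule_lof]

lemma Phi_om (n : ℕ) : phx ∘ₗ eL n = Phi ∘ₗ omL n := by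
  apply lin_ext
  intro b
  rcases b with _ | i' | j' | ⟨j', i'⟩ | ⟨j', i'⟩
  · simp [eL, omL, eb, omB, phx, phxB]
  · simp only [eL, omL, eb, omB, phx, LinearMap.comp_apply, homMM_bas]
    split_ifs <;> simp [phxB]
  · simp only [eL, omL, eb, omB, LinearMap.comp_apply, homMM_bas, Phi_some]
    simp [phx, phf, phxB, phfB]
  · simp only [eL, omL, eb, omB, LinearMap.comp_apply, homMM_bas]
    split_ifs
    · simp [phx, phf, phxB, phfB]
    · simp
  · simp [eL, omL, eb, omB]

lemma Phi_TT (n : ℕ) : Phi ∘ₗ TT n = Phi := by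
  apply DirectSum.linearMap_ext
  intro m
  cases m with
  | none =>
    ext v
    have h := DFunLike.congr_fun (Phi_om n) v
    simp only [LinearMap.comp_apply] at h
    change Phi (TT n (inc none v)) = Phi (inc none v)
    rw [TT_none, map_add, Phi_none, Phi_none, map_sub, h]
    abel
  | some m =>
    ext v
    change Phi (TT n (inc (some m) v)) = Phi (inc (some m) v)
    rw [TT_some]

/-- The module as an object of the module category. -/
noncomputable abbrev MC : ModuleCat.{0} RR := ModuleCat.of RR MM

/-- The telescope. -/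
noncomputable def FF : ℕ ⥤ ModuleCat.{0} RR :=
  Functor.ofSequence (X := fun _ => ModuleCat.of RR PP) (fun n => ModuleCat.ofHom (TT n))

/-- The direct limit of the telescope. -/
noncomputable abbrev Nlim : ModuleCat.{0} RR := Limits.colimit FF

noncomputable def inn (n : ℕ) : PP →ₗ[RR] Nlim := (Limits.colimit.ι FF n).hom

lemma inn_succ (n : ℕ) (p : PP) : inn (n + 1) (TT n p) = inn n p := by
  have h := Limits.colimit.w FF (homOfLE (Nat.le_add_right n 1))
  have h2 : FF.map (homOfLE (Nat.le_add_right n 1)) = ModuleCat.ofHom (TT n) :=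
    Functor.ofSequence_map_homOfLE_succ _ n
  rw [h2] at h
  have h3 := congrArg (fun f => ModuleCat.Hom.hom f p) h
  exact h3

/-- The cocone given by the detecting module. -/
noncomputable def coc : Limits.Cocone FF where
  pt := ModuleCat.of RR NN
  ι := NatTrans.ofSequence (fun _ => ModuleCat.ofHom Phi) (by
    intro n
    have h2 : FF.map (homOfLE (Nat.le_add_right n 1)) = ModuleCat.ofHom (TT n) :=
      Functor.ofSequence_map_homOfLE_succ _ n
    rw [h2]
    apply ModuleCat.hom_ext
    exact Phi_TT n)

noncomputable def PhiN : Nlim →ₗ[RR] NN := (Limits.colimit.desc FF coc).hom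

lemma PhiN_inn (n : ℕ) (p : PP) : PhiN (inn n p) = Phi p := by
  have h := Limits.colimit.ι_desc coc n
  have h3 := congrArg (fun f => ModuleCat.Hom.hom f p) h
  exact h3

lemma exists_rep (y : Nlim) : ∃ n p, inn n p = y := by
  obtain ⟨n, p, h⟩ := Limits.Concrete.isColimit_exists_rep FF (Limits.colimit.isColimit FF) y
  exact ⟨n, p, h⟩

lemma rep_zero (n : ℕ) (r : RR) (p : PP) (h : inn n (r • p) = 0) :
    ∃ k, ∃ p' : PP, inn k p' = inn n p ∧ r • p' = 0 := by
  have h0 : (Limits.colimit.cocone FF).ι.app n (r • p) =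
      (Limits.colimit.cocone FF).ι.app n (0 : PP) := by
    have : inn n (0 : PP) = 0 := map_zero _
    exact h.trans this.symm
  obtain ⟨k, f, g, hk⟩ := Limits.Concrete.isColimit_exists_of_rep_eq FF
    (Limits.colimit.isColimit FF) (r • p : PP) (0 : PP) h0
  refine ⟨k, FF.map f p, ?_, ?_⟩
  · have h := Limits.colimit.w FF f
    have h3 := congrArg (fun f => ModuleCat.Hom.hom f p) h
    exact h3
  · have e1 : FF.map f (r • p : PP) = r • FF.map f p := map_smul (FF.map f).hom r p
    have e2 : FF.map g (0 : PP) = 0 := map_zero (FF.map g).hom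
    exact e1.symm.trans (hk.trans e2)

end Pool.Agent.AddLim
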