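import Mathlib
import Pool.Agent.AddLim.Main

set_option autoImplicit false
open CategoryTheory

namespace Pool.Agent.AddLim

/-- coefficient functional -/
noncomputable def cf (b : B) : MM →+ ℤ where
  toFun m := (show B →₀ ℤ from m) b
  map_zero' := rfl
  map_add' _ _ := rfl

open Classical in
lemma cf_bas (b b' : B) : cf b (bas b') = if b' = b then 1 else 0 := by
  change (Finsupp.single b' (1 : ℤ)) b = _
  rw [Finsupp.single_apply]

lemma hom_zero {V : Type} [AddCommGroup V] (f : MM →+ V) (m : MM)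
    (h : ∀ b, cf b m ≠ 0 → f (bas b) = 0) : f m = 0 := by
  have hf : f = ext (fun b => f (bas b)) := by
    apply hom_ext
    intro b
    rw [ext_bas]
  rw [hf]
  change (Finsupp.linearCombination ℤ (fun b => f (bas b))) (show B →₀ ℤ from m) = 0
  rw [Finsupp.linearCombination_apply, Finsupp.sum]
  apply Finset.sum_eq_zero
  intro b hb
  have : cf b m ≠ 0 := Finsupp.mem_support_iff.mp hb
  rw [h b this, smul_zero]

lemma ds_zero {ι : Type} [DecidableEq ι] {V : Type} [AddCommGroup V]
    (f : DirectSum ι (fun _ => MM) →+ V) (q : DirectSum ι (fun _ => MM))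
    (h : ∀ l b, cf b (q l) ≠ 0 → f (DirectSum.of (fun _ => MM) l (bas b)) = 0) : f q = 0 := by
  classical
  rw [← DirectSum.sum_support_of q, map_sum]
  apply Finset.sum_eq_zero
  intro l _
  exact hom_zero (f.comp (DirectSum.of (fun _ => MM) l)) (q l) (fun b hb => h l b hb)

/-- compare two functionals on `MM` -/
lemma cf_eq {f g : MM →+ ℤ} (h : ∀ b, f (bas b) = g (bas b)) (m : MM) : f m = g m := by
  rw [hom_ext h]

lemma cf_o_E (i : ℕ) (j : ℕ → ℕ) (m : MM) : cf (.o j) (gen (.E i) • m) = 0 := by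
  have := cf_eq (f := (cf (.o j)).comp (DistribSMul.toAddMonoidHom MM (gen (.E i)))) (g := 0) (by
    intro b
    rcases b with _ | i' | j' | ⟨j', i'⟩ | ⟨j', i'⟩ <;>
      simp [act] <;> (try split_ifs) <;> simp [cf_bas]) m
  exact this

lemma cf_z_E (i : ℕ) (m : MM) : cf .z (gen (.E i) • m) = 0 := by
  have := cf_eq (f := (cf .z).comp (DistribSMul.toAddMonoidHom MM (gen (.E i)))) (g := 0) (by
    intro b
    rcases b with _ | i' | j' | ⟨j', i'⟩ | ⟨j', i'⟩ <;>
      simp [act] <;> (try split_ifs) <;> simp [cf_bas]) m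
  exact this

lemma cf_w_E (i i' : ℕ) (h : i' ≠ i) (j : ℕ → ℕ) (m : MM) :
    cf (.w j i') (gen (.E i) • m) = 0 := by
  have := cf_eq (f := (cf (.w j i')).comp (DistribSMul.toAddMonoidHom MM (gen (.E i)))) (g := 0) (by
    intro b
    rcases b with _ | i' | j' | ⟨j', i'⟩ | ⟨j', i'⟩ <;>
      simp [act] <;> (try split_ifs) <;> simp [cf_bas, Ne.symm h]) m
  exact this

lemma cf_ez_E (i i' : ℕ) (h : i' ≠ i) (m : MM) :
    cf (.ez i') (gen (.E i) • m) = 0 := by
  have := cf_eq (f := (cf (.ez i')).comp (DistribSMul.toAddMonoidHom MM (gen (.E i)))) (g := 0) (by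
    intro b
    rcases b with _ | i' | j' | ⟨j', i'⟩ | ⟨j', i'⟩ <;>
      simp [act] <;> (try split_ifs) <;> simp [cf_bas, Ne.symm h]) m
  exact this

lemma cf_ez_P (i : ℕ) (j : ℕ → ℕ) (m : MM) :
    cf (.ez i) (gen (.P j) • m) = cf (.e j i) m := by
  have := cf_eq (f := (cf (.ez i)).comp (DistribSMul.toAddMonoidHom MM (gen (.P j))))
    (g := cf (.e j i)) (by
    intro b
    rcases b with _ | i' | j' | ⟨j', i'⟩ | ⟨j', i'⟩ <;>
      simp [act, cf_bas] <;> (try split_ifs) <;> simp_all [cf_bas]) m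
  exact this

lemma cf_z_P (j : ℕ → ℕ) (m : MM) :
    cf .z (gen (.P j) • m) = cf (.o j) m := by
  have := cf_eq (f := (cf .z).comp (DistribSMul.toAddMonoidHom MM (gen (.P j))))
    (g := cf (.o j)) (by
    intro b
    rcases b with _ | i' | j' | ⟨j', i'⟩ | ⟨j', i'⟩ <;>
      simp [act, cf_bas] <;> (try split_ifs) <;> simp_all [cf_bas]) m
  exact this

/-- The shape of the elements killed by all `P j` and fixed by `E i`. -/
lemma shape (i : ℕ) (m : MM) (hE : gen (.E i) • m = m) (hP : ∀ j, gen (.P j) • m = 0) (b : B)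
    (hb : cf b m ≠ 0) : (∃ j, b = .w j i) ∨ b = .ez i := by
  rcases b with _ | i' | j' | ⟨j', i'⟩ | ⟨j', i'⟩
  · exact absurd (by rw [← hE, cf_z_E]) hb
  · right
    by_contra h
    have h : i' ≠ i := fun h' => h (by rw [h'])
    exact hb (by rw [← hE, cf_ez_E i i' h])
  · exact absurd (by rw [← hE, cf_o_E]) hb
  · exact absurd (by rw [← cf_ez_P, hP, map_zero]) hb
  · left
    refine ⟨j', ?_⟩
    by_contra h
    have h : i' ≠ i := fun h' => h (by rw [h'])
    exact hb (by rw [← hE, cf_w_E i i' h])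

lemma cV_E (j : ℕ → ℕ) (i : ℕ) (x : NN) : cV j i (gen (.E i) • x) = cV j i x := by
  rw [E_smul_NN]; simp

lemma cV_W (j : ℕ → ℕ) (i : ℕ) (x : NN) : cV j i (gen (.W i) • x) = cS j x := by
  rw [W_smul_NN]; simp

lemma cV_P (j j' : ℕ → ℕ) (i : ℕ) (x : NN) : cV j i (gen (.P j') • x) = 0 := by
  rw [P_smul_NN]; simp

lemma cU_P (j : ℕ → ℕ) (x : NN) : cU (gen (.P j) • x) = cS j x := by
  rw [P_smul_NN]; simp

/-- The key bound: finitely many copies of `MM` only give bounded error terms. -/
lemma key {ι : Type} [DecidableEq ι] (h : DirectSum ι (fun _ => MM) →ₗ[RR] NN) (i : ℕ) (t : ℕ)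
    (ht : ∀ l, cU (h (DirectSum.lof RR ι (fun _ => MM) l (bas .z))) t = 0)
    (q : DirectSum ι (fun _ => MM)) (hE : gen (.E i) • q = q)
    (hP : ∀ j, gen (.P j) • q = 0) (j : ℕ → ℕ) : cV j i (h q) t = 0 := by
  have := ds_zero (((Finsupp.applyAddHom t).comp (cV j i)).comp h.toAddMonoidHom) q (by
    intro l b hb
    have hE' : gen (.E i) • (q l) = q l := by
      rw [← DirectSum.smul_apply, hE]
    have hP' : ∀ j, gen (.P j) • (q l) = 0 := by
      intro j
      rw [← DirectSum.smul_apply, hP, DirectSum.zero_apply]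
    have hs := shape i (q l) hE' hP' b hb
    change cV j i (h (DirectSum.lof RR ι (fun _ => MM) l (bas b))) t = 0
    rcases hs with ⟨j', rfl⟩ | rfl
    · have e1 : bas (.w j' i) = gen (.W i) • bas (.o j') := by simp [act]
      rw [e1, map_smul, map_smul, cV_W, ← cU_P, ← map_smul, ← map_smul, gen_smul_bas]
      simp only [act]
      split_ifs
      · exact ht l
      · simp
    · have e1 : bas (.ez i) = gen (.E i) • gen (.P j) • bas (.o j) := by simp [act]
      rw [e1, map_smul, map_smul, cV_E, map_smul, map_smul, cV_P]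
      rfl)
  exact this

/-- the standard function `0` -/
def j0 : ℕ → ℕ := fun _ => 0

open Classical in
/-- the additive section -/
noncomputable def kapB (j : ℕ → ℕ) : B → MM
  | .o j' => if j' = j0 then bas (.o j) else 0
  | .e j' i => if j' = j0 then bas (.e j i) else 0
  | _ => 0

noncomputable def kap (j : ℕ → ℕ) : MM →+ MM := ext (kapB j)

lemma P_kap (j : ℕ → ℕ) (m : MM) : gen (.P j) • kap j m = gen (.P j0) • m := by
  have := hom_ext (f := (DistribSMul.toAddMonoidHom MM (gen (.P j))).comp (kap j))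
    (g := DistribSMul.toAddMonoidHom MM (gen (.P j0))) (by
    intro b
    rcases b with _ | i' | j' | ⟨j', i'⟩ | ⟨j', i'⟩ <;>
      simp [act, kap, kapB] <;> (try split_ifs) <;> simp_all [act, kapB])
  exact DFunLike.congr_fun this m

lemma P_kap_ne (j j' : ℕ → ℕ) (h : j' ≠ j) (m : MM) : gen (.P j') • kap j m = 0 := by
  have := hom_ext (f := (DistribSMul.toAddMonoidHom MM (gen (.P j'))).comp (kap j))
    (g := 0) (by
    intro b
    rcases b with _ | i' | j' | ⟨j', i'⟩ | ⟨j', i'⟩ <;>
      simp [act, kap, kapB] <;> (try split_ifs) <;> simp_all [act, kapB, Ne.symm h])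
  exact DFunLike.congr_fun this m

lemma EE (i : ℕ) (m : MM) : gen (.E i) • gen (.E i) • m = gen (.E i) • m := by
  have := hom_ext (f := (DistribSMul.toAddMonoidHom MM (gen (.E i))).comp
      (DistribSMul.toAddMonoidHom MM (gen (.E i))))
    (g := DistribSMul.toAddMonoidHom MM (gen (.E i))) (by
    intro b
    rcases b with _ | i' | j' | ⟨j', i'⟩ | ⟨j', i'⟩ <;>
      simp [act] <;> (try split_ifs) <;> simp_all [act])
  exact DFunLike.congr_fun this m

lemma PE (i : ℕ) (j : ℕ → ℕ) (m : MM) :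
    gen (.P j) • gen (.E i) • m = gen (.E i) • gen (.P j) • m := by
  have := hom_ext (f := (DistribSMul.toAddMonoidHom MM (gen (.P j))).comp
      (DistribSMul.toAddMonoidHom MM (gen (.E i))))
    (g := (DistribSMul.toAddMonoidHom MM (gen (.E i))).comp
      (DistribSMul.toAddMonoidHom MM (gen (.P j)))) (by
    intro b
    rcases b with _ | i' | j' | ⟨j', i'⟩ | ⟨j', i'⟩ <;>
      simp [act] <;> (try split_ifs) <;> simp_all [act])
  exact DFunLike.congr_fun this m

end Pool.Agent.AddLim
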