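import Mathlib
import Pool.Agent.AddLim.Struct

set_option autoImplicit false
open CategoryTheory

namespace Pool.Agent.AddLim

/-- On elements killed by `P j` the coordinates `(j, i)` of `Phi` come from `w j i` only. -/
lemma Phi_coord (j : ℕ → ℕ) (i : ℕ) (p : PP) (hP : gen (.P j) • p = 0)
    (hw : ∀ m, cf (.w j i) (p m) = 0) : cV j i (Phi p) = 0 := by
  have := ds_zero ((cV j i).comp Phi.toAddMonoidHom) p (by
    intro l b hb
    have hP' : gen (.P j) • (p l) = 0 := by
      rw [← DirectSum.smul_apply, hP, DirectSum.zero_apply]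
    change cV j i (Phi (inc l (bas b))) = 0
    rcases b with _ | i' | j' | ⟨j', i'⟩ | ⟨j', i'⟩
    · cases l with
      | none => simp [phx, phxB]
      | some l => simp [phf, phfB]
    · cases l with
      | none => simp [phx, phxB]
      | some l => simp [phf, phfB]
    · cases l with
      | none =>
        rw [Phi_none]
        simp only [phx, homMM_bas, phxB, cV_mkN]
        split_ifs with h
        · subst h
          exact absurd (by rw [← cf_z_P, hP', map_zero]) hb
        · rfl
      | some l => rw [Phi_some]; simp [phf, phfB]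
    · cases l with
      | none =>
        rw [Phi_none]
        simp only [phx, homMM_bas, phxB, cV_mkN]
        split_ifs with h
        · obtain ⟨h1, h2⟩ := h
          subst h1
          subst h2
          exact absurd (by rw [← cf_ez_P, hP', map_zero]) hb
        · rfl
      | some l => rw [Phi_some]; simp [phf, phfB]
    · cases l with
      | none => rw [Phi_none]; simp [phx, phxB]
      | some l =>
        rw [Phi_some]
        simp only [phf, homMM_bas, phfB, cV_mkN]
        split_ifs with h
        · obtain ⟨h1, h2⟩ := h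
          subst h1
          subst h2
          exact absurd (hw _) hb
        · rfl)
  exact this

lemma fin_w (j : ℕ → ℕ) (p : PP) : ∃ I : ℕ, ∀ i, I ≤ i → ∀ m, cf (.w j i) (p m) = 0 := by
  induction p using DirectSum.induction_on with
  | zero => exact ⟨0, fun i _ m => by simp⟩
  | of l v =>
    let s : Finset B := (show B →₀ ℤ from v).support
    have hinj : Function.Injective (fun i : ℕ => B.w j i) := by
      intro a b h
      simpa using h
    have hfin : {i : ℕ | B.w j i ∈ s}.Finite :=
      Set.Finite.preimage hinj.injOn s.finite_toSet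
    obtain ⟨I, hI⟩ := hfin.bddAbove
    refine ⟨I + 1, fun i hi m => ?_⟩
    by_cases hm : m = l
    · subst hm
      rw [DirectSum.of_eq_same]
      by_contra hne
      have : i ∈ {i : ℕ | B.w j i ∈ s} := Finsupp.mem_support_iff.mpr hne
      have := hI this
      omega
    · rw [DirectSum.of_eq_of_ne _ _ _ hm, map_zero]
  | add x y hx hy =>
    obtain ⟨I, hI⟩ := hx
    obtain ⟨I', hI'⟩ := hy
    refine ⟨max I I', fun i hi m => ?_⟩
    rw [DirectSum.add_apply, map_add, hI i (le_trans (le_max_left _ _) hi),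
      hI' i (le_trans (le_max_right _ _) hi), add_zero]

/-- the distinguished element of the first stage over `j` -/
noncomputable def xt (j : ℕ → ℕ) : PP := inc none (bas (.o j))

lemma P_xt (j : ℕ → ℕ) : gen (.P j) • xt j = inc none (bas .z) := by
  rw [xt, ← map_smul, gen_smul_bas]; simp [act]

lemma P_xt_ne (j j' : ℕ → ℕ) (h : j' ≠ j) : gen (.P j') • xt j = 0 := by
  rw [xt, ← map_smul, gen_smul_bas]; simp [act, Ne.symm h]

lemma inn_ez (i n : ℕ) (h : n ≤ i) : inn n (inc none (bas (.ez i))) = 0 := by
  obtain ⟨k, rfl⟩ := Nat.exists_eq_add_of_le h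
  clear h
  induction k generalizing n with
  | zero =>
    rw [← inn_succ, TT_none]
    simp [eL, eb, omL, omB]
  | succ k ih =>
    rw [← inn_succ, TT_none]
    have e1 : eL n (bas (.ez (n + (k + 1)))) = 0 := by simp [eL, eb]
    have e2 : omL n (bas (.ez (n + (k + 1)))) = 0 := by simp [omL, omB]
    rw [e1, e2, sub_zero, add_zero]
    have := ih (n + 1)
    rw [show n + 1 + k = n + (k + 1) by ring] at this
    exact this

lemma Phi_xt (j : ℕ → ℕ) (i : ℕ) : cV j i (Phi (xt j)) = Finsupp.single (j i) 1 := by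
  rw [xt, Phi_none]
  simp [phx, phxB]

/-- The direct limit of the telescope is not a direct limit of summands of finite direct sums of
copies of `MM`. -/
theorem not_fin :
    ¬ (∃ (J : Type) (_ : SmallCategory J) (_ : IsFiltered J) (F : J ⥤ ModuleCat.{0} RR),
        (∀ j : J, ∃ (n : ℕ) (M : Fin n → ModuleCat.{0} RR), (∀ i, M i = MC) ∧
          ∃ (f : (F.obj j : Type) →ₗ[RR] DirectSum (Fin n) (fun i => (M i : Type)))
            (g : DirectSum (Fin n) (fun i => (M i : Type)) →ₗ[RR] (F.obj j : Type)),
            g ∘ₗ f = LinearMap.id) ∧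
        ∃ c : Limits.Cocone F, Nonempty (Limits.IsColimit c) ∧ Nonempty (c.pt ≅ Nlim)) := by
  rintro ⟨J, _, _, F, hF, c, ⟨hc⟩, ⟨iso⟩⟩
  have hF' : ∀ a : J, ∃ n : ℕ, ∃ (f : (F.obj a : Type) →ₗ[RR] DirectSum (Fin n) (fun _ => MM))
      (g : DirectSum (Fin n) (fun _ => MM) →ₗ[RR] (F.obj a : Type)), ∀ x, g (f x) = x := by
    intro a
    obtain ⟨n, M, hM, f, g, hfg⟩ := hF a
    obtain rfl : M = fun _ => MC := funext hM
    exact ⟨n, f, g, fun x => DFunLike.congr_fun hfg x⟩
  clear hF
  -- the structure maps
  let lam : ∀ a : J, (F.obj a : Type) →ₗ[RR] Nlim := fun a => (c.ι.app a ≫ iso.hom).hom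
  have hlam : ∀ (a b : J) (t : a ⟶ b) (x : F.obj a), lam b (F.map t x) = lam a x := by
    intro a b t x
    have h := c.w t
    have h3 := congrArg (fun f => ModuleCat.Hom.hom f x) h
    exact congrArg (fun y => iso.hom y) h3
  have hsurj : ∀ y : Nlim, ∃ a x, lam a x = y := by
    intro y
    obtain ⟨a, x, h⟩ := Limits.Concrete.isColimit_exists_rep F hc (iso.inv y)
    refine ⟨a, x, ?_⟩
    have h2 : lam a x = iso.hom (iso.inv y) := congrArg (fun y => iso.hom y) h
    rw [h2]
    simp
  have hinj : ∀ (a : J) (x : F.obj a), lam a x = 0 → ∃ (b : J) (t : a ⟶ b), F.map t x = 0 := by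
    intro a x h
    have h1 : c.ι.app a x = 0 := by
      have h2 : iso.inv (iso.hom (c.ι.app a x)) = iso.inv 0 := congrArg (fun y => iso.inv y) h
      rw [map_zero] at h2
      simpa using h2
    have h0 : c.ι.app a x = c.ι.app a (0 : F.obj a) := by rw [h1, map_zero]
    obtain ⟨k, f, g, hk⟩ := Limits.Concrete.isColimit_exists_of_rep_eq F hc x (0 : F.obj a) h0
    exact ⟨k, f, by rw [hk, map_zero]⟩
  obtain ⟨a, c', hc'⟩ := hsurj (inn 0 (xt j0))
  obtain ⟨n, f, g, hfg⟩ := hF' a
  let cj : (ℕ → ℕ) → F.obj a := fun j => g (DirectSum.map (fun _ => kap j) (f c'))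
  have hcj : ∀ j, gen (.P j) • cj j = gen (.P j0) • c' := by
    intro j
    have e1 : gen (.P j) • (DirectSum.map (fun _ => kap j) (f c')) = gen (.P j0) • (f c') := by
      ext l
      rw [DirectSum.smul_apply, DirectSum.smul_apply, DirectSum.map_apply, P_kap]
    change gen (.P j) • g (DirectSum.map (fun _ => kap j) (f c')) = _
    rw [← map_smul, e1, map_smul, hfg]
  have hcj' : ∀ j j', j' ≠ j → gen (.P j') • cj j = 0 := by
    intro j j' h
    have e1 : gen (.P j') • (DirectSum.map (fun _ => kap j) (f c')) = 0 := by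
      ext l
      rw [DirectSum.smul_apply, DirectSum.map_apply, P_kap_ne j j' h, DirectSum.zero_apply]
    change gen (.P j') • g (DirectSum.map (fun _ => kap j) (f c')) = _
    rw [← map_smul, e1, map_zero]
  -- the bounds
  have hbd : ∀ i : ℕ, ∃ N : ℕ, ∀ t, N ≤ t → ∀ j, cV j i (PhiN (lam a (cj j))) t = 0 := by
    intro i
    have h0 : lam a (gen (.E i) • gen (.P j0) • c') = 0 := by
      rw [map_smul, map_smul, hc', ← map_smul, ← map_smul, P_xt, ← map_smul, gen_smul_bas]
      simp only [act, optv_some]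
      exact inn_ez i 0 (Nat.zero_le _)
    obtain ⟨b, t, ht⟩ := hinj a _ h0
    obtain ⟨n', f', g', hfg'⟩ := hF' b
    let h : DirectSum (Fin n') (fun _ => MM) →ₗ[RR] NN := PhiN ∘ₗ lam b ∘ₗ g'
    let bd : Fin n' → ℕ := fun l =>
      (cU (h (DirectSum.lof RR (Fin n') (fun _ => MM) l (bas .z)))).support.sup id
    refine ⟨Finset.univ.sup bd + 1, fun t' ht' j => ?_⟩
    have hcond : ∀ l, cU (h (DirectSum.lof RR (Fin n') (fun _ => MM) l (bas .z))) t' = 0 := by
      intro l
      by_contra hne
      have h1 : t' ∈ (cU (h (DirectSum.lof RR (Fin n') (fun _ => MM) l (bas .z)))).support :=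
        Finsupp.mem_support_iff.mpr hne
      have h2 : t' ≤ bd l := Finset.le_sup (f := id) h1
      have h3 : bd l ≤ Finset.univ.sup bd := Finset.le_sup (Finset.mem_univ l)
      omega
    let r : DirectSum (Fin n') (fun _ => MM) := f' (F.map t (cj j))
    have hPr : ∀ j', gen (.P j') • gen (.E i) • r = 0 := by
      intro j'
      have e1 : gen (.P j') • gen (.E i) • r = gen (.E i) • gen (.P j') • r := by
        ext l
        simp only [DirectSum.smul_apply]
        rw [PE]
      rw [e1]
      by_cases hj : j' = j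
      · subst hj
        change gen (.E i) • gen (.P j') • f' ((F.map t).hom (cj j')) = 0
        rw [← map_smul, ← map_smul, ← map_smul, ← map_smul, hcj j']
        have ht2 : (F.map t).hom (gen (.E i) • gen (.P j0) • c') = 0 := ht
        rw [ht2, map_zero]
      · change gen (.E i) • gen (.P j') • f' ((F.map t).hom (cj j)) = 0
        rw [← map_smul, ← map_smul, ← map_smul, ← map_smul, hcj' j j' hj, smul_zero, map_zero,
          map_zero]
    have hEr : gen (.E i) • gen (.E i) • r = gen (.E i) • r := by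
      ext l
      simp only [DirectSum.smul_apply]
      rw [EE]
    have hkey := key h i t' hcond (gen (.E i) • r) hEr hPr j
    have e2 : h (gen (.E i) • r) = gen (.E i) • PhiN (lam a (cj j)) := by
      rw [map_smul]
      congr 1
      change PhiN (lam b (g' (f' (F.map t (cj j))))) = _
      rw [hfg', hlam]
    rw [e2, cV_E] at hkey
    exact hkey
  choose N hN using hbd
  -- compare with the distinguished element over `N`
  let y : Nlim := lam a (cj N) - inn 0 (xt N)
  have hy : gen (.P N) • y = 0 := by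
    change gen (.P N) • (lam a (cj N) - inn 0 (xt N)) = 0
    rw [smul_sub, ← map_smul, hcj, map_smul, hc', ← map_smul, ← map_smul, P_xt, P_xt, sub_self]
  obtain ⟨k, p, hp⟩ := exists_rep y
  have hp0 : inn k (gen (.P N) • p) = 0 := by rw [map_smul, hp, hy]
  obtain ⟨k', p', hp', hPp'⟩ := rep_zero k (gen (.P N)) p hp0
  obtain ⟨I, hI⟩ := fin_w N p'
  have h1 : cV N I (Phi p') = 0 := Phi_coord N I p' hPp' (hI I le_rfl)
  have h2 : Phi p' = PhiN (lam a (cj N)) - Phi (xt N) := by
    rw [← PhiN_inn k' p', hp', hp]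
    change PhiN (lam a (cj N) - inn 0 (xt N)) = _
    rw [map_sub, PhiN_inn]
  have h3 : cV N I (PhiN (lam a (cj N))) = Finsupp.single (N I) 1 := by
    rw [h2, map_sub, sub_eq_zero, Phi_xt] at h1
    exact h1
  have h4 := hN I (N I) le_rfl N
  rw [h3] at h4
  simp at h4

/-- The direct limit of the telescope is a direct limit of direct sums of copies of `MM`. -/
theorem is_lim :
    (∃ (J : Type) (_ : SmallCategory J) (_ : IsFiltered J) (F : J ⥤ ModuleCat.{0} RR),
        (∀ j : J, ∃ (ι : Type) (M : ι → ModuleCat.{0} RR), (∀ i, M i = MC) ∧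
          ∃ (f : (F.obj j : Type) →ₗ[RR] DirectSum ι (fun i => (M i : Type)))
            (g : DirectSum ι (fun i => (M i : Type)) →ₗ[RR] (F.obj j : Type)),
            g ∘ₗ f = LinearMap.id) ∧
        ∃ c : Limits.Cocone F, Nonempty (Limits.IsColimit c) ∧ Nonempty (c.pt ≅ Nlim)) := by
  refine ⟨ℕ, inferInstance, inferInstance, FF, ?_, Limits.colimit.cocone FF,
    ⟨Limits.colimit.isColimit FF⟩, ⟨Iso.refl _⟩⟩
  intro j
  refine ⟨Option ℕ, fun _ => MC, fun _ => rfl, ?_⟩
  exact ⟨(LinearMap.id : PP →ₗ[RR] PP), (LinearMap.id : PP →ₗ[RR] PP), rfl⟩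

end Pool.Agent.AddLim
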